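import Pool.Agent.Results.MP_f50388_nt.UnbalancedFamiliesVaryingFields
import Pool.Agent.K7.H13.Dig.Rap

/-!
# Ranks and Tate-Shafarevich groups along the truncations of almost every real number

`W_t : y² = x³ + A(t) x + B(t)` over `F_t = ℚ(√D_1(t), …, √D_r(t))` is one of the one-parameter
families of the starting file `UnbalancedFamiliesVaryingFields`, and `ρ(t)` is the rank of `W_t(F_t)` plus
the corank of the 2-primary part of `Ш(W_t / F_t)`.  (By the conjecture of Birch and Swinnerton-Dyer the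
second summand is `0`.)  In the starting file the average of `2 ^ (ρ(t) / 2 ^ r)` over the intervals
`(N, N + M]`, `|N| ≤ M ^ L`, is shown to be bounded.  Here the parameter `t` runs through very sparse
sequences, given by an arbitrary real number `α` outside a set of measure zero.

* For every real `b > 1` and almost every real `α` (for `b = 10` the `⌊b ^ n α⌋` are the truncations of the
  decimal expansion of `α`): for all these families the logarithmic averages
  `(1 / log N) ∑_{n ≤ N} 2 ^ (ρ(⌊b ^ n α⌋) / 2 ^ (r + 1)) / n` are bounded for large `N` by a constant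
  which depends on the family only.
* For every sequence of reals `λ_0 > 1`, `λ_{n + 1} ≥ λ_n ^ (1 + δ)`, and almost every real `α`: for
  all families the averages `(1 / N) ∑_{n < N} 2 ^ (ρ(⌊λ_n α⌋) / 2 ^ (r + 1))` are bounded for large `N` by a
  constant which depends on the family and on `δ` only.
* For every sequence of reals `λ_n ≥ 1` and almost every real `α`: for all families and all `ε > 0`,
  `ρ(⌊λ_n α⌋) ≤ (1 + ε) 2 ^ r log₂ n` for all large `n`.

The proof: conditional expectations with respect to the binary digits of `α`, orthogonality of the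
differences of successive conditional expectations, and the bound for the short intervals.
-/

set_option autoImplicit false

namespace Pool.Agent.Results.MP_f50388_nt.AlmostEveryReal

open Finset Polynomial Filter MeasureTheory

open Pool.Agent.TH841.NF.D (HasDiv crk rk)

open Pool.Agent.Results.MP_f50388_nt.UnbalancedFamiliesVaryingFields (EF Gen u s)

/-- the data of a family: integers `a_k`, polynomials `f_{k,i}`, `i < n_k`, `D₀`, `D_1, …, D_r` and the
coefficients `A`, `B` of `W_t : y² = x³ + A(t) x + B(t)` -/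
structure Data where
  /-- the numbers of irreducible factors -/
  n : Fin 3 → ℕ
  /-- the number of square roots -/
  r : ℕ
  /-- constants -/
  a : Fin 3 → ℤ
  /-- irreducible factors -/
  f : ∀ k : Fin 3, Fin (n k) → ℤ[X]
  /-- the common factor -/
  D₀ : ℤ[X]
  /-- the polynomials whose square roots generate the fields -/
  D : Fin r → ℤ[X]
  /-- coefficient -/
  A : ℤ[X]
  /-- coefficient -/
  B : ℤ[X]

/-- the hypotheses of the starting file: with `u_k = a_k ∏_i f_{k,i}` one has `u₀ - u₁ = u₂`, the `f_{k,i}` are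
irreducible of positive degree and pairwise non-associated and do not divide `D₀, …, D_r`,
`x³ + A x + B = (x - e₁) (x - e₂) (x - e₃)` with `e₂ - e₁ = D₀ u₀`, `e₃ - e₁ = D₀ u₁`, and
`2 n_k + s_k(T) ≤ n₀ + n₁ + n₂` for all `k` and `T`, where `s_k(T)` is the number of the `i` such that the
twist by `D₀ ∏_{l ∈ T} D_l` of `y² = x (x - u₀) (x - u₁)` has split multiplicative reduction at `f_{k,i}` -/
structure Data.Ok (S : Data) : Prop where
  a_ne : ∀ k, S.a k ≠ 0
  irr : ∀ k i, Irreducible (S.f k i) ∧ 0 < (S.f k i).natDegree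
  not_assoc : ∀ k i l j, (⟨k, i⟩ : Σ k : Fin 3, Fin (S.n k)) ≠ ⟨l, j⟩ →
    ¬ Associated (S.f k i) (S.f l j)
  sub : u S.a S.f 0 - u S.a S.f 1 = u S.a S.f 2
  D₀_ne : S.D₀ ≠ 0
  D₀_dvd : ∀ k i, ¬ S.f k i ∣ S.D₀
  D_ne : ∀ l, S.D l ≠ 0
  D_dvd : ∀ l k i, ¬ S.f k i ∣ S.D l
  split : ∀ (T : Finset (Fin S.r)) (k : Fin 3),
    2 * S.n k + s (S.D₀ * ∏ i ∈ T, S.D i) S.a S.f k ≤ S.n 0 + S.n 1 + S.n 2
  roots : ∃ e₁ e₂ e₃ : ℤ[X], (∀ t x : ℤ, x ^ 3 + S.A.eval t * x + S.B.eval t =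
      (x - e₁.eval t) * (x - e₂.eval t) * (x - e₃.eval t)) ∧
    e₂ - e₁ = S.D₀ * u S.a S.f 0 ∧ e₃ - e₁ = S.D₀ * u S.a S.f 1

/-- the subfield `ℚ(√d_1, …, √d_r)` of the complex numbers -/
noncomputable def Fld {r : ℕ} (d : Fin r → ℤ) : IntermediateField ℚ ℂ :=
  IntermediateField.adjoin ℚ {x : ℂ | ∃ i, x ^ 2 = (d i : ℂ)}

instance {r : ℕ} (d : Fin r → ℤ) : NumberField (Fld d) where
  to_charZero := inferInstance
  to_finiteDimensional := by
    have hfin : Finite {x : ℂ | ∃ i, x ^ 2 = (d i : ℂ)} := by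
      have h : {x : ℂ | ∃ i, x ^ 2 = (d i : ℂ)} = ⋃ i, {x : ℂ | x ^ 2 = (d i : ℂ)} := by
        ext x
        simp
      rw [h]
      refine Set.finite_iUnion fun i => ?_
      have h2 : {x : ℂ | x ^ 2 = (d i : ℂ)} ⊆ ((X ^ 2 - C (d i : ℂ) : ℂ[X]).roots.toFinset : Set ℂ) := by
        intro x hx
        rw [Finset.mem_coe, Multiset.mem_toFinset, mem_roots (X_pow_sub_C_ne_zero (by norm_num) _)]
        rw [IsRoot.def, eval_sub, eval_pow, eval_X, eval_C]
        exact sub_eq_zero.2 hx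
      exact Set.Finite.subset (Finset.finite_toSet _) h2
    refine IntermediateField.finiteDimensional_adjoin fun x hx => ?_
    obtain ⟨i, hi⟩ := hx
    refine ⟨X ^ 2 - C (d i : ℚ), monic_X_pow_sub_C _ (by norm_num), ?_⟩
    rw [eval₂_sub, eval₂_pow, eval₂_X, eval₂_C, hi]
    simp

namespace Data

/-- the field `F_t = ℚ(√D_1(t), …, √D_r(t))` -/
noncomputable abbrev Fd (S : Data) (t : ℤ) : IntermediateField ℚ ℂ := Fld fun i => (S.D i).eval t

/-- the curve `W_t : y² = x³ + A(t) x + B(t)` over `F_t` -/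
noncomputable def W (S : Data) (t : ℤ) : WeierstrassCurve (S.Fd t) := EF (S.A.eval t) (S.B.eval t) (S.Fd t)

/-- `ρ(t)`: the rank of `W_t(F_t)` plus the corank of `Ш(W_t / F_t)[2^∞]` -/
noncomputable def rho (S : Data) (t : ℤ) : ℕ := rk (S.W t) + crk (S.W t)

/-- `t` is not a zero of the polynomials `D₀ u_k`, `D_i` -/
def Good (S : Data) (t : ℤ) : Prop :=
  (∀ k, (S.D₀ * u S.a S.f k).eval t ≠ 0) ∧ ∀ i, (S.D i).eval t ≠ 0

open Classical in
/-- `2 ^ (ρ(t) / 2 ^ (r + 1))`, and `0` for the finitely many excluded `t` -/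
noncomputable def size (S : Data) (t : ℤ) : ℝ :=
  if S.Good t then (2 : ℝ) ^ ((S.rho t : ℝ) / 2 ^ (S.r + 1)) else 0

end Data

/-! ### Proof -/

theorem fld_eq {r : ℕ} (d : Fin r → ℤ) (x : Fin r → ℂ) (hx : ∀ i, x i ^ 2 = (d i : ℂ)) :
    Fld d = IntermediateField.adjoin ℚ (Set.range x) := by
  apply le_antisymm
  · unfold Fld
    rw [IntermediateField.adjoin_le_iff]
    rintro z ⟨i, hz⟩
    have hm : x i ∈ IntermediateField.adjoin ℚ (Set.range x) :=
      IntermediateField.subset_adjoin _ _ ⟨i, rfl⟩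
    rw [← hx, sq_eq_sq_iff_eq_or_eq_neg] at hz
    rcases hz with h | h
    · rw [h]
      exact hm
    · rw [h]
      exact neg_mem hm
  · rw [IntermediateField.adjoin_le_iff]
    rintro z ⟨i, rfl⟩
    exact IntermediateField.subset_adjoin _ _ ⟨i, hx i⟩

theorem adj_any {r : ℕ} (d : Fin r → ℤ) (I : Algebra ℚ (Fld d)) (x : Fin r → ℂ)
    (hx : ∀ i, x i ^ 2 = (d i : ℂ)) (hmem : ∀ i, x i ∈ Fld d) :
    IntermediateField.adjoin ℚ (Set.range fun i => (⟨x i, hmem i⟩ : Fld d)) =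
      (⊤ : @IntermediateField ℚ (Fld d) _ _ I) := by
  have hI : I = (Fld d).algebra' := Subsingleton.elim _ _
  subst hI
  apply IntermediateField.lift_injective (Fld d)
  rw [IntermediateField.lift_adjoin, IntermediateField.lift_top]
  have h : (Subtype.val '' Set.range fun i => (⟨x i, hmem i⟩ : Fld d)) = Set.range x := by
    ext z
    constructor
    · rintro ⟨_, ⟨i, rfl⟩, rfl⟩
      exact ⟨i, rfl⟩
    · rintro ⟨i, rfl⟩
      exact ⟨_, ⟨i, rfl⟩, rfl⟩
  rw [h, ← fld_eq d x hx]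

theorem gen_fld {r : ℕ} (d : Fin r → ℤ) : Gen (Fld d) d := by
  choose x hx using fun i => IsAlgClosed.exists_pow_nat_eq (d i : ℂ) (n := 2) (by norm_num)
  have hmem : ∀ i, x i ∈ Fld d := fun i => IntermediateField.subset_adjoin _ _ ⟨i, hx i⟩
  refine ⟨fun i => ⟨x i, hmem i⟩, fun i => Subtype.ext ?_, ?_⟩
  · show x i ^ 2 = _
    rw [hx]
    push_cast
    rfl
  · refine adj_any d _ x hx hmem

instance : Countable ℤ[X] :=
  Cardinal.mk_le_aleph0_iff.1 (Polynomial.cardinalMk_le_max.trans (max_le Cardinal.mk_le_aleph0 le_rfl))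

instance : Countable Data := by
  have h : Function.Injective (fun S : Data => (⟨S.n, S.r, S.a, S.f, S.D₀, S.D, S.A, S.B⟩ :
      Σ (n : Fin 3 → ℕ) (r : ℕ), (Fin 3 → ℤ) × (∀ k : Fin 3, Fin (n k) → ℤ[X]) × ℤ[X] ×
        (Fin r → ℤ[X]) × ℤ[X] × ℤ[X])) := by
    rintro ⟨n, r, a, f, D₀, D, A, B⟩ ⟨n', r', a', f', D₀', D', A', B'⟩ h
    simp only [Sigma.mk.injEq] at h
    obtain ⟨rfl, h⟩ := h
    simp only [heq_eq_eq, Sigma.mk.injEq] at h
    obtain ⟨rfl, h⟩ := h
    simp only [heq_eq_eq, Prod.mk.injEq] at h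
    obtain ⟨rfl, rfl, rfl, rfl, rfl, rfl⟩ := h
    rfl
  exact h.countable

theorem size_nonneg (S : Data) (t : ℤ) : 0 ≤ S.size t := by
  unfold Data.size
  split_ifs <;> positivity

/-- the starting result -/
theorem base (S : Data) (hS : S.Ok) (L : ℕ) : ∃ C : ℝ, 0 ≤ C ∧
    Pool.Agent.K7.H13.Dig.SIA (fun t => S.size t ^ 2) L C ∧
    ∀ (N : ℤ) (M : ℕ), 1 ≤ M → |N| ≤ (M : ℤ) ^ L → ∀ t ∈ Ioc N (N + M), S.Good t →
      BddAbove {q | HasDiv (S.W t) q} := by
  classical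
  obtain ⟨e₁, e₂, e₃, he, h12, h13⟩ := hS.roots
  obtain ⟨C, hC⟩ := Pool.Agent.Results.MP_f50388_nt.UnbalancedFamiliesVaryingFields.result S.n S.r S.a S.f
    hS.a_ne hS.irr hS.not_assoc hS.sub S.D₀ hS.D₀_ne hS.D₀_dvd S.D hS.D_ne hS.D_dvd hS.split S.A S.B
    e₁ e₂ e₃ he h12 h13 L
  refine ⟨|C|, abs_nonneg C, ?_, ?_⟩
  · intro N M hM hN
    obtain ⟨_, h2, _⟩ := hC N M hM hN (fun t => S.Fd t) (fun t _ => gen_fld _) (fun t => S.W t)
      (fun t => rfl)
    have h3 : ∑ t ∈ Ioc N (N + M), S.size t ^ 2 =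
        ∑ t ∈ (Ioc N (N + M)).filter (fun t => S.Good t),
          ((2 : ℝ) ^ (rk (S.W t) + crk (S.W t))) ^ ((1 : ℝ) / 2 ^ S.r) := by
      rw [Finset.sum_filter]
      refine Finset.sum_congr rfl fun t _ => ?_
      unfold Data.size
      split_ifs with hg
      · have e1 : ((2 : ℝ) ^ ((S.rho t : ℝ) / 2 ^ (S.r + 1))) ^ 2 =
            (2 : ℝ) ^ ((S.rho t : ℝ) * (1 / 2 ^ S.r)) := by
          rw [← Real.rpow_natCast, ← Real.rpow_mul (by norm_num)]
          congr 1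
          rw [pow_succ]
          push_cast
          field_simp
        have e2 : ((2 : ℝ) ^ (rk (S.W t) + crk (S.W t))) ^ ((1 : ℝ) / 2 ^ S.r) =
            (2 : ℝ) ^ ((S.rho t : ℝ) * (1 / 2 ^ S.r)) := by
          rw [Real.rpow_mul (by norm_num), Real.rpow_natCast]
          rfl
        rw [e1, e2]
      · norm_num
    simp only
    rw [h3]
    refine le_trans (le_of_eq ?_) (h2.trans ?_)
    · unfold UnbalancedFamiliesVaryingFields.Par
      refine Finset.sum_congr ?_ fun _ _ => rfl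
      ext t
      simp only [Finset.mem_filter]
      rfl
    · exact mul_le_mul_of_nonneg_right (le_abs_self C) (Nat.cast_nonneg M)
  · intro N M hM hN t ht hg
    obtain ⟨h1, _, _⟩ := hC N M hM hN (fun t => S.Fd t) (fun t _ => gen_fld _) (fun t => S.W t)
      (fun t => rfl)
    refine h1 t ?_
    unfold UnbalancedFamiliesVaryingFields.Par
    rw [Finset.mem_filter]
    exact ⟨ht, hg⟩

/-- **Theorem.** Let `W_t / F_t` be the family of elliptic curves over multiquadratic fields with data `S`,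
and `ρ(t) = rank W_t(F_t) + corank Ш(W_t / F_t)[2^∞]` (the corank is finite). There are constants
`C(S)`, `C'(S, δ)` such that:

(1) for every `b > 1` and almost every real `α`, for all `S`, and `N ≥ N₀(b, α, S)`:
`∑_{n ≤ N} 2 ^ (ρ(⌊b ^ n α⌋) / 2 ^ (r + 1)) / n ≤ C(S) log N`;

(2) if `δ > 0`, `λ_0 > 1` and `λ_{n + 1} ≥ λ_n ^ (1 + δ)`, then for almost every `α`, for all `S`, and
`N ≥ N₀`: `∑_{n < N} 2 ^ (ρ(⌊λ_n α⌋) / 2 ^ (r + 1)) ≤ C'(S, δ) N`;

(3) if `λ_n ≥ 1` for all `n`, then for almost every `α`, for all `S` and `ε > 0`, and `n ≥ n₀`: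
`ρ(⌊λ_n α⌋) ≤ (1 + ε) 2 ^ r log₂ n`.

The finitely many integers which are zeros of the polynomials of the family are left out. -/
theorem result :
    (∀ S : Data, S.Ok → ∀ t : ℤ, S.Good t → BddAbove {q | HasDiv (S.W t) q}) ∧
    (∃ C : Data → ℝ, ∀ b : ℝ, 1 < b → ∀ᵐ α : ℝ, ∀ S : Data, S.Ok → ∀ᶠ N : ℕ in atTop,
      ∑ n ∈ Icc 1 N, S.size ⌊b ^ n * α⌋ / n ≤ C S * Real.log N) ∧
    (∃ C' : Data → ℝ → ℝ, ∀ (δ : ℝ) (l : ℕ → ℝ), 0 < δ → 1 < l 0 →
      (∀ n, l n ^ (1 + δ) ≤ l (n + 1)) → ∀ᵐ α : ℝ, ∀ S : Data, S.Ok → ∀ᶠ N : ℕ in atTop,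
      ∑ n ∈ range N, S.size ⌊l n * α⌋ ≤ C' S δ * N) ∧
    ∀ l : ℕ → ℝ, (∀ n, 1 ≤ l n) → ∀ᵐ α : ℝ, ∀ S : Data, S.Ok → ∀ ε : ℝ, 0 < ε →
      ∀ᶠ n : ℕ in atTop, S.Good ⌊l n * α⌋ →
        (S.rho ⌊l n * α⌋ : ℝ) ≤ (1 + ε) * 2 ^ S.r * Real.logb 2 n := by
  classical
  refine ⟨?_, ?_, ?_, ?_⟩
  · intro S hS t hg
    obtain ⟨C, _, _, h⟩ := base S hS 1
    refine h (t - 1) (t.natAbs + 1) (by omega) ?_ t ?_ hg
    · rw [pow_one]
      push_cast
      have : |t - 1| ≤ |t| + 1 := (abs_sub t 1).trans (by simp)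
      omega
    · rw [Finset.mem_Ioc]
      omega
  · choose! C hC0 hC _ using fun S : {S : Data // S.Ok} => base S.1 S.2 5
    refine ⟨fun S => if h : S.Ok then 18 * (C ⟨S, h⟩ + 3) else 0, fun b hb => ?_⟩
    rw [ae_all_iff]
    intro S
    by_cases hS : S.Ok
    swap
    · exact Eventually.of_forall fun _ h => absurd h hS
    have h1 := Pool.Agent.K7.H13.Dig.ae_of_mu fun K =>
      Pool.Agent.K7.H13.Dig.digits (size_nonneg S) (hC0 ⟨S, hS⟩) (hC ⟨S, hS⟩) hb K
    filter_upwards [h1] with α hα _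
    simp only [dif_pos hS]
    exact hα
  · choose! C hC0 hC _ using fun x : {S : Data // S.Ok} × ℕ => base x.1.1 x.1.2 x.2
    refine ⟨fun S δ => if h : S.Ok then 8 * (C (⟨S, h⟩, ⌈4 * (1 + δ) / δ⌉₊) + 3) else 0,
      fun δ l hδ hl0 hl => ?_⟩
    rw [ae_all_iff]
    intro S
    by_cases hS : S.Ok
    swap
    · exact Eventually.of_forall fun _ h => absurd h hS
    have h1 := Pool.Agent.K7.H13.Dig.ae_of_mu fun K =>
      Pool.Agent.K7.H13.Dig.rapid (size_nonneg S) hδ (Nat.le_ceil _)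
        (hC0 (⟨S, hS⟩, ⌈4 * (1 + δ) / δ⌉₊)) (hC (⟨S, hS⟩, ⌈4 * (1 + δ) / δ⌉₊)) l hl0 hl K
    filter_upwards [h1] with α hα _
    simp only [dif_pos hS]
    exact hα
  · intro l hl
    rw [ae_all_iff]
    intro S
    by_cases hS : S.Ok
    swap
    · exact Eventually.of_forall fun _ h => absurd h hS
    have h1 : ∀ᵐ α : ℝ, ∀ k : ℕ, ∀ᶠ n : ℕ in atTop,
        S.size ⌊l n * α⌋ ^ 2 < (n : ℝ) ^ (1 + 1 / ((k : ℝ) + 1)) := by
      rw [ae_all_iff]
      intro k
      refine Pool.Agent.K7.H13.Dig.ae_of_mu fun K => ?_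
      refine Pool.Agent.K7.H13.Dig.pointwise (g := fun t => S.size t ^ 2) (fun t => sq_nonneg _) K
        (fun L => ?_) l hl (by positivity)
      obtain ⟨C, hC0, hC, _⟩ := base S hS L
      exact ⟨C, hC0, hC⟩
    filter_upwards [h1] with α hα _ ε hε
    obtain ⟨k, hk⟩ := exists_nat_one_div_lt hε
    filter_upwards [hα k, eventually_ge_atTop 1] with n hn hn1 hg
    have hn0 : (0 : ℝ) < n := by exact_mod_cast hn1
    have hn1' : (1 : ℝ) ≤ n := by exact_mod_cast hn1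
    have h2 : S.size ⌊l n * α⌋ ^ 2 = (2 : ℝ) ^ ((S.rho ⌊l n * α⌋ : ℝ) / 2 ^ S.r) := by
      unfold Data.size
      rw [if_pos hg, ← Real.rpow_natCast, ← Real.rpow_mul (by norm_num)]
      congr 1
      rw [pow_succ]
      push_cast
      field_simp
    rw [h2] at hn
    have h3 : (2 : ℝ) ^ ((S.rho ⌊l n * α⌋ : ℝ) / 2 ^ S.r) ≤ (n : ℝ) ^ (1 + ε) :=
      hn.le.trans (Real.rpow_le_rpow_of_exponent_le hn1' (by linarith))
    have h4 := Real.logb_le_logb_of_le (b := 2) (by norm_num) (by positivity) h3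
    rw [Real.logb_rpow (by norm_num) (by norm_num), Real.logb_rpow_eq_mul_logb_of_pos hn0,
      div_le_iff₀ (by positivity)] at h4
    linarith

end Pool.Agent.Results.MP_f50388_nt.AlmostEveryReal
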