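import Pool.Agent.K7.H56.U2.F

/-!
# The Birch and Swinnerton-Dyer formula modulo 2 for `y² + y = x³` over the 2-extensions of an arbitrary
# number field

Let `E : y² + y = x³`, let `N` be an arbitrary number field, and let `K` be an extension of `N` that is
contained in a Galois extension of `N` of 2-power degree: a tower of quadratic extensions.  We assume that
the discriminant of `K` is odd, and that the ramification index over `ℚ` of the primes of `N` above three
is prime to three (or at least that two is not near to a cube at these primes: `CondAtThree`).  There is no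
other condition: the Galois group, the ramified primes and the ramification above three are arbitrary.

For `k = N` and `k = K` the formula of Birch and Swinnerton-Dyer says that
`x(k) = L(E/k, 1) √|Δ_k| #E(k)_tors² / (Ω_{E/k} C_{E/k})` is `#Ш(E/k)` if the rank of `E(k)` is zero, and
`0` otherwise, where `C_{E/k}` is the product of the Tamagawa numbers and of the twelfth roots of the
absolute values of the quotients of the minimal discriminant and the discriminant of the equation.
`FormulaModTwo` is this formula modulo two: if the rank of `E(k)` is zero and `Ш(E/k)[2^∞] = 0` then `x(k)`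
is a unit at all the primes above two, and otherwise `x(k)` is integral at all the primes above two and
lies in all of them.

We prove that the formula modulo two for `E/N` implies the formula modulo two for `E/K`.  In detail:

* `L(E/N, s)` and `L(E/K, s)` are continued to meromorphic functions that are analytic at `1`, and `x(N)` and
  `x(K)` are algebraic numbers without two in the denominator.
* If a prime of `N`, not above three, modulo which two is a cube, is ramified in `K`, then `x(K)` lies in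
  all the primes above two, and the rank of `E(K)` is positive or `Ш(E/K)[2] ≠ 0`.  So in this case the
  formula modulo two holds for `E/K`, without any hypothesis on `E/N`.
* Otherwise, `x(K)` is a unit above two iff `x(N)` is, `x(K)` lies in all the primes above two iff
  `x(N)` does, and the rank of `E(K)` is zero and `Ш(E/K)[2^∞] = 0` iff the same is true over `N`.

Proof.
* Analytic side.  Let `K/N` be quadratic, and `N ∋ √-3`.  `L(E/K, s)` is the product of the functions
  of `N` and of its twist by the quadratic character `X` of the ideals of `N`.  The value at one of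
  a twist by a finite character of odd conductor, divided by the period, is integral above two, and it
  is congruent to the value of the trivial character without the Euler factors at the conductor
  (helper56: sums of Eisenstein-Kronecker numbers over the elements of `N` modulo units; any number field
  `N ∋ √-3` in which two is unramified).  The Euler factor at a prime `w` over the bad primes lies
  in the maximal ideal iff two is a cube modulo `w`, since then the curve has a point of order two modulo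
  `w`.  Quadratic reciprocity in `N` shows that `X` has the right conductor.  The curve has additive
  reduction at the primes above three of all the fields of the tower (helper70, helper73).
* Algebraic side.  The classes of `H¹(K, E[2])` are given by elements with square norm of `K(∛2)`.  The
  local conditions at all places are translated to conditions for the element (even valuation at the roots of
  `X³ - 2`, a condition at the primes above two; they are automatic above three).  Counting units in `N(∛2)`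
  (helper89) gives an element that satisfies all the conditions except at one prime `w` modulo which two is a
  cube; it satisfies the condition over `K` if `w` is ramified in `K`.  In the other case an element
  over `K` can be descended to `N` since the Galois group is a 2-group.
* The local factors.  The equation is not minimal above three in general; the Tamagawa numbers are odd, and
  the quotients of discriminants are powers of three (helper73).
-/

set_option autoImplicit false

open NumberField IsDedekindDomain WeierstrassCurve MeasureTheory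
open scoped Classical

namespace Pool.Agent.Results.MP_f50388_nt.FormulaModTwoRelative

open Pool.Agent.TH841.NF.D (Sha)

/-- `E : y² + y = x³`, over the ring `R` -/
def E (R : Type) [CommRing R] : WeierstrassCurve R := ⟨0, 0, 1, 0, 0⟩

section

variable {k : Type} [Field k] [NumberField k]

/-- The normalised absolute value of the completion `k_v`. -/
noncomputable def nabs (v : HeightOneSpectrum (𝓞 k)) (x : v.adicCompletion k) : ℝ :=
  if x = 0 then 0 else (Ideal.absNorm v.asIdeal : ℝ) ^ WithZero.log (Valued.v x)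

/-- A minimal Weierstrass equation of `W` over the completion `k_v`. -/
noncomputable def minEq (W : WeierstrassCurve k) (v : HeightOneSpectrum (𝓞 k)) :
    WeierstrassCurve (v.adicCompletion k) :=
  (W.baseChange (v.adicCompletion k)).minimal (v.adicCompletionIntegers k)

/-- `V⁰(k_v)`, the group of the points with nonsingular reduction of an equation `V` with integral
coefficients over the completion `k_v`: the point at infinity and the points `(x, y)` where one of the
partial derivatives `2 y + a₁ x + a₃` and `3 x² + 2 a₂ x + a₄ - a₁ y` does not lie in the maximal ideal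
(this is always so if `x` is not integral). -/
noncomputable def nonsing (v : HeightOneSpectrum (𝓞 k)) (V : WeierstrassCurve (v.adicCompletion k)) :
    AddSubgroup V.toAffine.Point :=
  AddSubgroup.closure {P | ∀ x y h, P = Affine.Point.some x y h →
    1 ≤ Valued.v (2 * y + V.a₁ * x + V.a₃) ∨
    1 ≤ Valued.v (3 * x ^ 2 + 2 * V.a₂ * x + V.a₄ - V.a₁ * y)}

/-- The Tamagawa number `c_v = [V(k_v) : V⁰(k_v)]`, where `V` is the minimal equation. -/
noncomputable def c (W : WeierstrassCurve k) (v : HeightOneSpectrum (𝓞 k)) : ℕ :=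
  (nonsing v (minEq W v)).index

/-- `|Δ_{v, min} / Δ|_v ^ (1 / 12)`. -/
noncomputable def corr (W : WeierstrassCurve k) (v : HeightOneSpectrum (𝓞 k)) : ℝ :=
  nabs v ((minEq W v).Δ / (W.baseChange (v.adicCompletion k)).Δ) ^ (1 / 12 : ℝ)

/-- `C_{W/k} = ∏ c_v |Δ_{v, min} / Δ|_v ^ (1 / 12)`. -/
noncomputable def prodC (W : WeierstrassCurve k) : ℝ :=
  ∏ᶠ v : HeightOneSpectrum (𝓞 k), (c W v : ℝ) * corr W v

/-- The 2-primary part of the Tate-Shafarevich group over `k`. -/
def Sha2 (W : WeierstrassCurve k) : Set (Sha W) := {x | ∃ n : ℕ, 2 ^ n • x = 0}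

end

/-- `4 x³ + b₂ x² + 2 b₄ x + b₆ = (2 y + a₁ x + a₃)²`. -/
def cubic (W : WeierstrassCurve ℤ) {R : Type} [CommRing R] (x : R) : R :=
  4 * x ^ 3 + W.b₂ * x ^ 2 + 2 * W.b₄ * x + W.b₆

/-- `Ω₊ = ∫_{W(ℝ)} |ω|` with `ω = dx / (2 y + a₁ x + a₃)`, as an integral over `x`: two real points lie
over each `x` with `cubic x > 0`. -/
noncomputable def realPeriod (W : WeierstrassCurve ℤ) : ℝ :=
  2 * ∫ x in {x : ℝ | 0 < cubic W x}, 1 / √(cubic W x)

/-- `Ω₋ = 2 ∫_{W(ℂ)} |ω ∧ ω̄|`, where `|ω ∧ ω̄| = du dv` in a local parameter `z = u + i v` with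
`dz = ω`, as an integral over `x`: two points lie over a general `x`, and `|ω ∧ ω̄|` is the area
element of the plane of `x` divided by `|cubic x|`. -/
noncomputable def complexPeriod (W : WeierstrassCurve ℤ) : ℝ := 2 * (2 * ∫ x : ℂ, 1 / ‖cubic W x‖)

/-- `Ω_{W/k} = Ω₊ ^ r₁ Ω₋ ^ r₂`. -/
noncomputable def Omega (k : Type) [Field k] [NumberField k] (W : WeierstrassCurve ℤ) : ℝ :=
  realPeriod W ^ InfinitePlace.nrRealPlaces k * complexPeriod W ^ InfinitePlace.nrComplexPlaces k

/-- The torsion subgroup of the group of the points over `k`. -/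
def tors (k : Type) [Field k] [NumberField k] : Set (E k).toAffine.Point :=
  {P | ∃ n : ℕ, 0 < n ∧ n • P = 0}

/-- The rank of the group of the points over `k`. -/
noncomputable def rank (k : Type) [Field k] [NumberField k] : ℕ :=
  Module.finrank ℤ (E k).toAffine.Point

/-- `x` is an algebraic number which is integral at all the primes above two. -/
def IsIntegralAtTwo (x : ℂ) : Prop :=
  ∃ m : ℤ, Odd m ∧ IsIntegral ℤ (m * x)

/-- `x` is an algebraic number which is a unit at all the primes above two. -/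
def IsUnitAtTwo (x : ℂ) : Prop :=
  x ≠ 0 ∧ ∃ m : ℤ, Odd m ∧ IsIntegral ℤ (m * x) ∧ IsIntegral ℤ (m * x⁻¹)

/-- `x` is an algebraic number which is integral at all the primes above two and lies in all of them:
a power of an odd multiple of `x` is twice an algebraic integer. -/
def IsEvenAtTwo (x : ℂ) : Prop :=
  ∃ (m : ℤ) (k : ℕ), Odd m ∧ 0 < k ∧ IsIntegral ℤ ((m * x) ^ k / 2)

/-- `x(k) = l √|Disc k| (#E(k)_tors)² / (Ω_{E/k} C_{E/k})`, where `l = L(E/k, 1)`: by the formula this
is `#Ш(E/k)` if the rank is zero, and `0` otherwise. -/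
noncomputable def value (k : Type) [Field k] [NumberField k] (l : ℂ) : ℂ :=
  l * (√|(discr k : ℝ)| : ℝ) * (Nat.card (tors k) : ℂ) ^ 2 / ((Omega k (E ℤ) : ℝ) * (prodC (E k) : ℝ))

section proof

variable {k : Type} [Field k] [NumberField k]

lemma c_eq (v : HeightOneSpectrum (𝓞 k)) : c (E k) v = Pool.Agent.K7.H73.L3.cc (Pool.Agent.Y696.E27 k) v :=
  rfl

lemma corr_eq (v : HeightOneSpectrum (𝓞 k)) :
    corr (E k) v = Pool.Agent.K7.H73.L3.mf (Pool.Agent.Y696.E27 k) v :=
  rfl

lemma prodC_eq : prodC (E k) = Pool.Agent.K7.H73.L3.CE (Pool.Agent.Y696.E27 k) :=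
  rfl

lemma per_facts (k : Type) [Field k] [NumberField k] : ∃ (Λ : PeriodPair) (ω : ℝ),
    Pool.Agent.Y696.IsPeriods Λ ω ∧ ∀ (Γ : Type) [LinearOrderedCommGroupWithZero Γ]
      (v : Valuation ℂ Γ), v 2 < 1 → 0 < realPeriod (E ℤ) ∧ 0 < complexPeriod (E ℤ) ∧
        v ((Omega k (E ℤ) : ℝ) : ℂ) = v (Pool.Agent.Y696.period k Λ ω) := by
  obtain ⟨Λ, ω, p1, p2, p3⟩ := Pool.Agent.Y696.exists_real
  have hP : Pool.Agent.Y696.IsPeriods Λ ω := ⟨p1, p2, p3⟩
  exact ⟨Λ, ω, hP, fun Γ _ v hv => Pool.Agent.K7.H73.BS.v_per hv k hP rfl rfl⟩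

lemma Omega_pos (k : Type) [Field k] [NumberField k] : 0 < Omega k (E ℤ) := by
  obtain ⟨Λ, ω, hP, h⟩ := per_facts k
  obtain ⟨V, hV⟩ := Pool.Agent.Y696.exists_over_two
  obtain ⟨hR, hC, -⟩ := h _ V.valuation hV
  unfold Omega
  positivity

/-- the size of the value -/
lemma v_value {l : ℂ} {Λ : PeriodPair} {ω : ℝ} {Γ : Type} [LinearOrderedCommGroupWithZero Γ]
    {v : Valuation ℂ Γ} (hv : v 2 < 1)
    (hper : v ((Omega k (E ℤ) : ℝ) : ℂ) = v (Pool.Agent.Y696.period k Λ ω))
    (ht : Odd (Nat.card (tors k))) (hT : Pool.Agent.K7.H70.SM.NG k) :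
    v (value k l) = v (l * (√|(discr k : ℝ)| : ℝ) / Pool.Agent.Y696.period k Λ ω) := by
  have hodd' : ∀ n : ℕ, Odd n → v (n : ℂ) = 1 := fun n hn => by
    have := Pool.Agent.Y688.v_odd hv (n := (n : ℤ)) (by exact_mod_cast hn)
    exact_mod_cast this
  have hC : v ((prodC (E k) : ℝ) : ℂ) = 1 := by
    rw [prodC_eq]
    exact (Pool.Agent.K7.H73.L3.CE_unit hT).2 _ v hv
  unfold value
  rw [map_div₀, map_mul, map_mul _ ((Omega k (E ℤ) : ℝ) : ℂ), map_pow, hC, hodd' _ ht, hper,
    one_pow, mul_one, mul_one, ← map_div₀]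

lemma sha_iff : (∀ s : Sha (E k), 2 • s = 0 → s = 0) ↔ Sha2 (E k) = {0} := by
  constructor
  · intro h
    apply Set.eq_singleton_iff_unique_mem.2
    refine ⟨⟨0, smul_zero _⟩, ?_⟩
    rintro x ⟨n, hn⟩
    induction n generalizing x with
    | zero => rwa [pow_zero, one_smul] at hn
    | succ n ih =>
      refine ih x (h _ ?_)
      rw [← mul_smul, ← pow_succ']
      exact hn
  · intro h s hs
    have h1 : s ∈ Sha2 (E k) := ⟨1, by rw [pow_one]; exact hs⟩
    rw [h] at h1
    exact h1

/-- units above two -/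
lemma unit_iff {x : ℂ} : IsUnitAtTwo x ↔ ∀ (Γ : Type) [LinearOrderedCommGroupWithZero Γ]
    (v : Valuation ℂ Γ), v 2 < 1 → v x = 1 := by
  constructor
  · rintro ⟨h0, m, hm, h1, h2⟩ Γ _ v hv
    exact Pool.Agent.K7.H56.U.val_of_unit h0 hm h1 h2 hv
  · intro h
    obtain ⟨V, hV⟩ := Pool.Agent.Y696.exists_over_two
    refine ⟨?_, Pool.Agent.K7.H73.BS.unit_of_val h⟩
    rintro rfl
    have := h _ V.valuation hV
    rw [map_zero] at this
    exact zero_ne_one this

/-- elements of all the primes above two -/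
lemma even_iff {x : ℂ} : IsEvenAtTwo x ↔ ∀ (Γ : Type) [LinearOrderedCommGroupWithZero Γ]
    (v : Valuation ℂ Γ), v 2 < 1 → v x < 1 := by
  constructor
  · rintro ⟨m, k, hm, hk, h⟩ Γ _ v hv
    exact Pool.Agent.K7.H56.U.val_of_even hm hk h hv
  · intro h
    exact Pool.Agent.K7.H56.M.even_of_val h

end proof


/-- The local factors, the torsion and the period: all the Tamagawa numbers are odd, and at the primes that
do not lie above three there is no local factor; the number of torsion points is odd. -/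
def Facts (k : Type) [Field k] [NumberField k] : Prop :=
  (∀ v : HeightOneSpectrum (𝓞 k), Odd (c (E k) v)) ∧
    (∀ v : HeightOneSpectrum (𝓞 k), (3 : 𝓞 k) ∉ v.asIdeal → c (E k) v = 1 ∧ corr (E k) v = 1) ∧
    0 < prodC (E k) ∧ Odd (Nat.card (tors k)) ∧ 0 < Omega k (E ℤ)

/-- `Λ` is the meromorphic continuation of `L(E/k, s)` to the plane, and it is analytic at `1`. -/
def IsContinuation (k : Type) [Field k] [NumberField k] (Λ : ℂ → ℂ) : Prop :=
  MeromorphicOn Λ Set.univ ∧ AnalyticAt ℂ Λ 1 ∧
    ∀ s : ℂ, 3 / 2 < s.re → LSeriesSummable ((fun n : ℤ => (n : ℂ)) ∘ (E k).LFunction) s ∧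
      Λ s = (E k).LSeries s

/-- The rank of `E(k)` is zero and `Ш(E/k)[2^∞] = 0`. -/
def Trivial (k : Type) [Field k] [NumberField k] : Prop := rank k = 0 ∧ Sha2 (E k) = {0}

/-- The formula of Birch and Swinnerton-Dyer modulo two, where `l = L(E/k, 1)`. -/
def FormulaModTwo (k : Type) [Field k] [NumberField k] (l : ℂ) : Prop :=
  (Trivial k → IsUnitAtTwo (value k l)) ∧ (¬ Trivial k → IsEvenAtTwo (value k l))

/-- A prime `w` of `N`, not above three, modulo which two is a cube, is ramified in `K`: there is a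
prime `w'` of `K` with `w 𝓞_K ⊆ w'²`. -/
def BadPrime (N K : Type) [Field N] [NumberField N] [Field K] [NumberField K] [Algebra N K] : Prop :=
  ∃ (w : HeightOneSpectrum (𝓞 N)) (w' : HeightOneSpectrum (𝓞 K)),
    (3 : 𝓞 N) ∉ w.asIdeal ∧ (∃ x : 𝓞 N, x ^ 3 - 2 ∈ w.asIdeal) ∧
    w.asIdeal.map (algebraMap (𝓞 N) (𝓞 K)) ≤ w'.asIdeal ^ 2

/-- The condition on `N` at the primes above three: the exponent of such a prime `v` in `3`, the
ramification index, is not a multiple of three, or (more generally) two is not near to a cube, i.e.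
`3 ord_v(3) > 2 ord_v(x³ - 2)` for all `x`. -/
def CondAtThree (N : Type) [Field N] [NumberField N] : Prop :=
  ∀ v : HeightOneSpectrum (𝓞 N), (3 : 𝓞 N) ∈ v.asIdeal →
    (∀ n : ℕ, (3 : 𝓞 N) ∈ v.asIdeal ^ (3 * n) → (3 : 𝓞 N) ∈ v.asIdeal ^ (3 * n + 1)) ∨
    ∀ x : N, v.valuation N (3 ^ 3) < v.valuation N (x ^ 3 - 2) ^ 2

section final

variable {k : Type} [Field k] [NumberField k]

lemma facts (hU : Pool.Agent.K7.H56.Unr2 k) (h3 : Pool.Agent.K7.H70.SM.NG k) : Facts k :=
  ⟨Pool.Agent.K7.H73.L3.cc_odd h3, fun _ hv => Pool.Agent.K7.H73.L3.away hv,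
    (Pool.Agent.K7.H73.L3.CE_unit h3).1,
    Pool.Agent.K7.H56.U.tors_E' (Pool.Agent.K7.H56.U.no_cube hU), Omega_pos k⟩

lemma triv_iff (hU : Pool.Agent.K7.H56.Unr2 k) : Trivial k ↔ Pool.Agent.K7.H56.U.S2 k := by
  rw [Pool.Agent.K7.H56.U.sel_iff (Pool.Agent.K7.H56.U.no_cube hU)]
  unfold Trivial
  rw [← sha_iff]
  have hrank : rank k = 0 ↔ Finite (E k).toAffine.Point := Pool.Agent.K7.H56.M.rank_E k
  rw [hrank]
  rfl

lemma isL_iff {L : ℂ → ℂ} : IsContinuation k L ↔ Pool.Agent.K7.H56.U.IsL k L :=
  ⟨fun h => ⟨h.1, h.2.1, h.2.2⟩, fun h => ⟨h.mero, h.an, h.eq⟩⟩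

lemma exists_periods : ∃ (Λ : PeriodPair) (ω : ℝ), Pool.Agent.Y696.IsPeriods Λ ω := by
  obtain ⟨Λ, ω, p1, p2, p3⟩ := Pool.Agent.Y696.exists_real
  exact ⟨Λ, ω, p1, p2, p3⟩

/-- the value and the normalized value -/
lemma v_xv (hU : Pool.Agent.K7.H56.Unr2 k) (h3 : Pool.Agent.K7.H70.SM.NG k) {L : ℂ → ℂ}
    {Λ : PeriodPair} {ω : ℝ} (hP : Pool.Agent.Y696.IsPeriods Λ ω)
    {Γ : Type} [LinearOrderedCommGroupWithZero Γ] {v : Valuation ℂ Γ} (hv : v 2 < 1) :
    v (value k (L 1)) = v (Pool.Agent.K7.H56.U.xv k Λ ω L) :=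
  v_value hv (Pool.Agent.K7.H73.BS.v_per hv k hP rfl rfl).2.2
    (Pool.Agent.K7.H56.U.tors_E' (Pool.Agent.K7.H56.U.no_cube hU)) h3

lemma ng_of_cond {N : Type} [Field N] [NumberField N] (h : CondAtThree N) :
    Pool.Agent.K7.H70.SM.NG N := by
  intro v hv
  rcases h v hv with h | h
  · exact Pool.Agent.K7.H56.U2.ng_mem v h
  · exact Pool.Agent.K7.H56.U2.ng_cube hv h

end final

/-- **The formula of Birch and Swinnerton-Dyer modulo two for `y² + y = x³` over the 2-extensions `K` of
a number field `N`.** -/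
theorem result (N K G : Type) [Field N] [NumberField N] [Field K] [NumberField K] [Field G]
    [NumberField G] [Algebra N K] [Algebra K G] [Algebra N G] [IsScalarTower N K G] [IsGalois N G]
    (hG : ∃ n : ℕ, Module.finrank N G = 2 ^ n) (h2 : ¬ (2 : ℤ) ∣ discr K) (h3 : CondAtThree N) :
    Facts N ∧ Facts K ∧ ∃ ΛN ΛK : ℂ → ℂ, IsContinuation N ΛN ∧ IsContinuation K ΛK ∧
      IsIntegralAtTwo (value N (ΛN 1)) ∧ IsIntegralAtTwo (value K (ΛK 1)) ∧
      (BadPrime N K → ¬ Trivial K ∧ IsEvenAtTwo (value K (ΛK 1))) ∧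
      (¬ BadPrime N K → (Trivial K ↔ Trivial N) ∧
        (IsUnitAtTwo (value K (ΛK 1)) ↔ IsUnitAtTwo (value N (ΛN 1))) ∧
        (IsEvenAtTwo (value K (ΛK 1)) ↔ IsEvenAtTwo (value N (ΛN 1)))) ∧
      (FormulaModTwo N (ΛN 1) → FormulaModTwo K (ΛK 1)) := by
  have hU : Pool.Agent.K7.H56.Unr2 K := Pool.Agent.K7.H56.U.unr2_of h2
  have h3N : Pool.Agent.K7.H70.SM.NG N := ng_of_cond h3
  have hUN : Pool.Agent.K7.H56.Unr2 N := Pool.Agent.K7.H56.M.unr2_down (K := K) hU
  obtain ⟨R, h3K⟩ := Pool.Agent.K7.H56.U2.rel_all5 (G := G) Pool.Agent.K7.H56.U2.ng_up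
    Pool.Agent.K7.H56.U2.lc3_true hG hU h3N
  have hnu := Pool.Agent.K7.H56.U2.ng_up
  obtain ⟨LK, hLK⟩ := Pool.Agent.K7.H56.U2.exL5 hnu hU h3K
  obtain ⟨LN, hLN⟩ := Pool.Agent.K7.H56.U2.exL5 hnu hUN h3N
  obtain ⟨Λ, ω, hP⟩ := exists_periods
  have hbad : BadPrime N K ↔ ¬ Pool.Agent.K7.H56.P.Gd N K := Pool.Agent.K7.H56.U.bad_iff.symm
  have hB : BadPrime N K → ¬ Trivial K ∧ IsEvenAtTwo (value K (LK 1)) := by
    intro hb
    rw [hbad] at hb
    refine ⟨fun h => R.bs hb ((triv_iff hU).1 h), even_iff.2 fun Γ _ v hv => ?_⟩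
    rw [v_xv hU h3K hP hv]
    exact R.bv hb LK hLK Λ ω hP Γ v hv
  have hGd : ¬ BadPrime N K → (Trivial K ↔ Trivial N) ∧
      (IsUnitAtTwo (value K (LK 1)) ↔ IsUnitAtTwo (value N (LN 1))) ∧
      (IsEvenAtTwo (value K (LK 1)) ↔ IsEvenAtTwo (value N (LN 1))) := by
    intro hb
    rw [hbad, not_not] at hb
    refine ⟨by rw [triv_iff hU, triv_iff hUN]; exact R.gs hb, ?_, ?_⟩
    · rw [unit_iff, unit_iff]
      refine forall_congr' fun Γ => forall_congr' fun _ => forall_congr' fun v =>
        forall_congr' fun hv => ?_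
      rw [v_xv hU h3K hP hv, v_xv hUN h3N hP hv]
      exact R.gv hb LN LK hLN hLK Λ ω hP Γ v hv
    · rw [even_iff, even_iff]
      refine forall_congr' fun Γ => forall_congr' fun _ => forall_congr' fun v =>
        forall_congr' fun hv => ?_
      rw [v_xv hU h3K hP hv, v_xv hUN h3N hP hv]
      have h5 := R.gv hb LN LK hLN hLK Λ ω hP Γ v hv
      have h6 := Pool.Agent.K7.H56.U2.xv_le5 hnu hU h3K hLK hP hv
      have h7 := Pool.Agent.K7.H56.U2.xv_le5 hnu hUN h3N hLN hP hv
      rw [lt_iff_le_and_ne, lt_iff_le_and_ne, and_iff_right h6, and_iff_right h7, Ne, Ne, h5]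
  refine ⟨facts hUN h3N, facts hU h3K, LN, LK, isL_iff.2 hLN, isL_iff.2 hLK,
    Pool.Agent.K7.H73.BS.integral_of_val fun Γ _ v hv => ?_,
    Pool.Agent.K7.H73.BS.integral_of_val fun Γ _ v hv => ?_, hB, hGd, fun hF => ?_⟩
  · rw [v_xv hUN h3N hP hv]
    exact Pool.Agent.K7.H56.U2.xv_le5 hnu hUN h3N hLN hP hv
  · rw [v_xv hU h3K hP hv]
    exact Pool.Agent.K7.H56.U2.xv_le5 hnu hU h3K hLK hP hv
  · by_cases hb : BadPrime N K
    · obtain ⟨h5, h6⟩ := hB hb
      exact ⟨fun h => absurd h h5, fun _ => h6⟩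
    · obtain ⟨h5, h6, h7⟩ := hGd hb
      exact ⟨fun h => h6.2 (hF.1 (h5.1 h)), fun h => h7.2 (hF.2 fun h' => h (h5.2 h'))⟩

end Pool.Agent.Results.MP_f50388_nt.FormulaModTwoRelative
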