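import Pool.Agent.K7.H56.U2.H

/-!
# The Birch and Swinnerton-Dyer formula modulo 2 for `y² + y = x³` over every tower of quadratic extensions
# of `ℚ`, and of infinitely many other base fields, in which 2 is unramified

Let `E : y² + y = x³`.  Let `C` be `ℚ(√-3)` or `ℚ(ζ₉)`, let `L/C` be a Galois extension of 2-power degree in
which, above the primes other than three, only primes ramify modulo which two is not a cube (`GoodRam`), and
let `M` be any subfield of `L`.  For example `M = ℚ`, `M = ℚ(cos (2π/9))`, or a field `M` of degree four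
with Galois group `A₄`.  Let `K` be a number field between `M` and a Galois extension of `M` of 2-power
degree, that is, the top of a tower of quadratic extensions that starts at `M`.  (`K` need not be Galois
over `M`.)  We assume that the discriminant of `K` is odd.  There is no condition on the ramification of the
other primes in `K/M`, and none on the Galois group.  The formula of Birch and Swinnerton-Dyer says that
`x(K) = L(E/K, 1) √|Δ_K| #E(K)_tors² / (Ω_{E/K} C_{E/K})` is `#Ш(E/K)` if the rank of `E(K)` is zero, and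
`0` otherwise; here `C_{E/K}` is the product of the Tamagawa numbers and of the twelfth roots of the absolute
values of the quotients of the minimal discriminants and the discriminant of the equation.  We prove it
modulo two: `x(K)` is an algebraic number without two in the denominator; if the rank of `E(K)` is zero and
`Ш(E/K)[2^∞] = 0` then `x(K)` is a unit at all the primes above two; and otherwise `x(K)` is in all the
primes above two.  Moreover, the first case happens if and only if two is not a cube modulo the primes of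
`M`, not above three, which are ramified in `K`.

`TwoPartTwoExtensions` contains the 2-part of the formula over the fields `M`.  The new part is the case
where `x(K)` is even: `K/M` can be ramified at any prime that does not divide two.  The starting file
`FormulaModTwo` has the analogous theorem for abelian extensions `K` of `ℚ`, contained in `ℚ(ζ_m)`, `m`
squarefree, in which the primes that divide `2 Δ` split completely.

Proof.  The theorem `FormulaModTwoRelative` (the formula modulo two goes up along the 2-extensions of any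
number field `N`, and it holds without any hypothesis on `N` if a prime modulo which two is a cube is
ramified), for `N = M`, and the 2-part of the formula over `M` (helper70, helper73).
-/

set_option autoImplicit false

open NumberField IsDedekindDomain WeierstrassCurve MeasureTheory
open scoped Classical

namespace Pool.Agent.Results.MP_f50388_nt.FormulaModTwoTowers

open Pool.Agent.TH841.NF.D (Sha)

/-- Above the prime numbers other than three, only primes modulo which `2` is not a cube ramify in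
`L/C`: if `σ ≠ 1` lies in the inertia group of the prime `w` of `L`, and `w` does not divide three, then
`2` is not a cube modulo the prime of `C` below `w`. -/
def GoodRam (C L : Type) [Field C] [NumberField C] [Field L] [NumberField L] [Algebra C L] : Prop :=
  ∀ (w : HeightOneSpectrum (𝓞 L)) (σ : Gal(L/C)), (3 : 𝓞 L) ∉ w.asIdeal →
    (∀ x : 𝓞 L, σ • x - x ∈ w.asIdeal) → σ ≠ 1 → ∀ α : 𝓞 C, α ^ 3 - 2 ∉ w.asIdeal.under (𝓞 C)

/-- `E : y² + y = x³`, over the ring `R` -/
def E (R : Type) [CommRing R] : WeierstrassCurve R := ⟨0, 0, 1, 0, 0⟩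

section

variable {k : Type} [Field k] [NumberField k]

/-- The normalised absolute value of the completion `k_v`. -/
noncomputable def nabs (v : HeightOneSpectrum (𝓞 k)) (x : v.adicCompletion k) : ℝ :=
  if x = 0 then 0 else (Ideal.absNorm v.asIdeal : ℝ) ^ WithZero.log (Valued.v x)

/-- A minimal Weierstrass equation of `W` over the completion `k_v`. -/
noncomputable def minEq (W : WeierstrassCurve k) (v : HeightOneSpectrum (𝓞 k)) :
    WeierstrassCurve (v.adicCompletion k) :=
  (W.baseChange (v.adicCompletion k)).minimal (v.adicCompletionIntegers k)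

/-- `V⁰(k_v)`, the group of the points with nonsingular reduction of an equation `V` with integral
coefficients over the completion `k_v`: the point at infinity and the points `(x, y)` where one of the
partial derivatives `2 y + a₁ x + a₃` and `3 x² + 2 a₂ x + a₄ - a₁ y` does not lie in the maximal ideal
(this is always so if `x` is not integral). -/
noncomputable def nonsing (v : HeightOneSpectrum (𝓞 k)) (V : WeierstrassCurve (v.adicCompletion k)) :
    AddSubgroup V.toAffine.Point :=
  AddSubgroup.closure {P | ∀ x y h, P = Affine.Point.some x y h →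
    1 ≤ Valued.v (2 * y + V.a₁ * x + V.a₃) ∨
    1 ≤ Valued.v (3 * x ^ 2 + 2 * V.a₂ * x + V.a₄ - V.a₁ * y)}

/-- The Tamagawa number `c_v = [V(k_v) : V⁰(k_v)]`, where `V` is the minimal equation. -/
noncomputable def c (W : WeierstrassCurve k) (v : HeightOneSpectrum (𝓞 k)) : ℕ :=
  (nonsing v (minEq W v)).index

/-- `|Δ_{v, min} / Δ|_v ^ (1 / 12)`. -/
noncomputable def corr (W : WeierstrassCurve k) (v : HeightOneSpectrum (𝓞 k)) : ℝ :=
  nabs v ((minEq W v).Δ / (W.baseChange (v.adicCompletion k)).Δ) ^ (1 / 12 : ℝ)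

/-- `C_{W/k} = ∏ c_v |Δ_{v, min} / Δ|_v ^ (1 / 12)`. -/
noncomputable def prodC (W : WeierstrassCurve k) : ℝ :=
  ∏ᶠ v : HeightOneSpectrum (𝓞 k), (c W v : ℝ) * corr W v

/-- The 2-primary part of the Tate-Shafarevich group over `k`. -/
def Sha2 (W : WeierstrassCurve k) : Set (Sha W) := {x | ∃ n : ℕ, 2 ^ n • x = 0}

end

/-- `4 x³ + b₂ x² + 2 b₄ x + b₆ = (2 y + a₁ x + a₃)²`. -/
def cubic (W : WeierstrassCurve ℤ) {R : Type} [CommRing R] (x : R) : R :=
  4 * x ^ 3 + W.b₂ * x ^ 2 + 2 * W.b₄ * x + W.b₆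

/-- `Ω₊ = ∫_{W(ℝ)} |ω|` with `ω = dx / (2 y + a₁ x + a₃)`, as an integral over `x`: two real points lie
over each `x` with `cubic x > 0`. -/
noncomputable def realPeriod (W : WeierstrassCurve ℤ) : ℝ :=
  2 * ∫ x in {x : ℝ | 0 < cubic W x}, 1 / √(cubic W x)

/-- `Ω₋ = 2 ∫_{W(ℂ)} |ω ∧ ω̄|`, where `|ω ∧ ω̄| = du dv` in a local parameter `z = u + i v` with
`dz = ω`, as an integral over `x`: two points lie over a general `x`, and `|ω ∧ ω̄|` is the area
element of the plane of `x` divided by `|cubic x|`. -/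
noncomputable def complexPeriod (W : WeierstrassCurve ℤ) : ℝ := 2 * (2 * ∫ x : ℂ, 1 / ‖cubic W x‖)

/-- `Ω_{W/k} = Ω₊ ^ r₁ Ω₋ ^ r₂`. -/
noncomputable def Omega (k : Type) [Field k] [NumberField k] (W : WeierstrassCurve ℤ) : ℝ :=
  realPeriod W ^ InfinitePlace.nrRealPlaces k * complexPeriod W ^ InfinitePlace.nrComplexPlaces k

/-- The torsion subgroup of the group of the points over `k`. -/
def tors (k : Type) [Field k] [NumberField k] : Set (E k).toAffine.Point :=
  {P | ∃ n : ℕ, 0 < n ∧ n • P = 0}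

/-- The rank of the group of the points over `k`. -/
noncomputable def rank (k : Type) [Field k] [NumberField k] : ℕ :=
  Module.finrank ℤ (E k).toAffine.Point

/-- `x` is an algebraic number which is integral at all the primes above two. -/
def IsIntegralAtTwo (x : ℂ) : Prop :=
  ∃ m : ℤ, Odd m ∧ IsIntegral ℤ (m * x)

/-- `x` is an algebraic number which is a unit at all the primes above two. -/
def IsUnitAtTwo (x : ℂ) : Prop :=
  x ≠ 0 ∧ ∃ m : ℤ, Odd m ∧ IsIntegral ℤ (m * x) ∧ IsIntegral ℤ (m * x⁻¹)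

/-- `x` is an algebraic number which is integral at all the primes above two and lies in all of them:
a power of an odd multiple of `x` is twice an algebraic integer. -/
def IsEvenAtTwo (x : ℂ) : Prop :=
  ∃ (m : ℤ) (k : ℕ), Odd m ∧ 0 < k ∧ IsIntegral ℤ ((m * x) ^ k / 2)

/-- `x(k) = l √|Disc k| (#E(k)_tors)² / (Ω_{E/k} C_{E/k})`, where `l = L(E/k, 1)`: by the formula this
is `#Ш(E/k)` if the rank is zero, and `0` otherwise. -/
noncomputable def value (k : Type) [Field k] [NumberField k] (l : ℂ) : ℂ :=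
  l * (√|(discr k : ℝ)| : ℝ) * (Nat.card (tors k) : ℂ) ^ 2 / ((Omega k (E ℤ) : ℝ) * (prodC (E k) : ℝ))

section proof

variable {k : Type} [Field k] [NumberField k]

lemma c_eq (v : HeightOneSpectrum (𝓞 k)) : c (E k) v = Pool.Agent.K7.H73.L3.cc (Pool.Agent.Y696.E27 k) v :=
  rfl

lemma corr_eq (v : HeightOneSpectrum (𝓞 k)) :
    corr (E k) v = Pool.Agent.K7.H73.L3.mf (Pool.Agent.Y696.E27 k) v :=
  rfl

lemma prodC_eq : prodC (E k) = Pool.Agent.K7.H73.L3.CE (Pool.Agent.Y696.E27 k) :=
  rfl

lemma per_facts (k : Type) [Field k] [NumberField k] : ∃ (Λ : PeriodPair) (ω : ℝ),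
    Pool.Agent.Y696.IsPeriods Λ ω ∧ ∀ (Γ : Type) [LinearOrderedCommGroupWithZero Γ]
      (v : Valuation ℂ Γ), v 2 < 1 → 0 < realPeriod (E ℤ) ∧ 0 < complexPeriod (E ℤ) ∧
        v ((Omega k (E ℤ) : ℝ) : ℂ) = v (Pool.Agent.Y696.period k Λ ω) := by
  obtain ⟨Λ, ω, p1, p2, p3⟩ := Pool.Agent.Y696.exists_real
  have hP : Pool.Agent.Y696.IsPeriods Λ ω := ⟨p1, p2, p3⟩
  exact ⟨Λ, ω, hP, fun Γ _ v hv => Pool.Agent.K7.H73.BS.v_per hv k hP rfl rfl⟩

lemma Omega_pos (k : Type) [Field k] [NumberField k] : 0 < Omega k (E ℤ) := by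
  obtain ⟨Λ, ω, hP, h⟩ := per_facts k
  obtain ⟨V, hV⟩ := Pool.Agent.Y696.exists_over_two
  obtain ⟨hR, hC, -⟩ := h _ V.valuation hV
  unfold Omega
  positivity

/-- the size of the value -/
lemma v_value {l : ℂ} {Λ : PeriodPair} {ω : ℝ} {Γ : Type} [LinearOrderedCommGroupWithZero Γ]
    {v : Valuation ℂ Γ} (hv : v 2 < 1)
    (hper : v ((Omega k (E ℤ) : ℝ) : ℂ) = v (Pool.Agent.Y696.period k Λ ω))
    (ht : Odd (Nat.card (tors k))) (hT : Pool.Agent.K7.H70.SM.NG k) :
    v (value k l) = v (l * (√|(discr k : ℝ)| : ℝ) / Pool.Agent.Y696.period k Λ ω) := by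
  have hodd' : ∀ n : ℕ, Odd n → v (n : ℂ) = 1 := fun n hn => by
    have := Pool.Agent.Y688.v_odd hv (n := (n : ℤ)) (by exact_mod_cast hn)
    exact_mod_cast this
  have hC : v ((prodC (E k) : ℝ) : ℂ) = 1 := by
    rw [prodC_eq]
    exact (Pool.Agent.K7.H73.L3.CE_unit hT).2 _ v hv
  unfold value
  rw [map_div₀, map_mul, map_mul _ ((Omega k (E ℤ) : ℝ) : ℂ), map_pow, hC, hodd' _ ht, hper,
    one_pow, mul_one, mul_one, ← map_div₀]

lemma sha_iff : (∀ s : Sha (E k), 2 • s = 0 → s = 0) ↔ Sha2 (E k) = {0} := by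
  constructor
  · intro h
    apply Set.eq_singleton_iff_unique_mem.2
    refine ⟨⟨0, smul_zero _⟩, ?_⟩
    rintro x ⟨n, hn⟩
    induction n generalizing x with
    | zero => rwa [pow_zero, one_smul] at hn
    | succ n ih =>
      refine ih x (h _ ?_)
      rw [← mul_smul, ← pow_succ']
      exact hn
  · intro h s hs
    have h1 : s ∈ Sha2 (E k) := ⟨1, by rw [pow_one]; exact hs⟩
    rw [h] at h1
    exact h1

/-- units above two -/
lemma unit_iff {x : ℂ} : IsUnitAtTwo x ↔ ∀ (Γ : Type) [LinearOrderedCommGroupWithZero Γ]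
    (v : Valuation ℂ Γ), v 2 < 1 → v x = 1 := by
  constructor
  · rintro ⟨h0, m, hm, h1, h2⟩ Γ _ v hv
    exact Pool.Agent.K7.H56.U.val_of_unit h0 hm h1 h2 hv
  · intro h
    obtain ⟨V, hV⟩ := Pool.Agent.Y696.exists_over_two
    refine ⟨?_, Pool.Agent.K7.H73.BS.unit_of_val h⟩
    rintro rfl
    have := h _ V.valuation hV
    rw [map_zero] at this
    exact zero_ne_one this

/-- elements of all the primes above two -/
lemma even_iff {x : ℂ} : IsEvenAtTwo x ↔ ∀ (Γ : Type) [LinearOrderedCommGroupWithZero Γ]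
    (v : Valuation ℂ Γ), v 2 < 1 → v x < 1 := by
  constructor
  · rintro ⟨m, k, hm, hk, h⟩ Γ _ v hv
    exact Pool.Agent.K7.H56.U.val_of_even hm hk h hv
  · intro h
    exact Pool.Agent.K7.H56.M.even_of_val h

end proof


/-- The local factors, the torsion and the period: all the Tamagawa numbers are odd, and at the primes that
do not lie above three there is no local factor; the number of torsion points is odd. -/
def Facts (k : Type) [Field k] [NumberField k] : Prop :=
  (∀ v : HeightOneSpectrum (𝓞 k), Odd (c (E k) v)) ∧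
    (∀ v : HeightOneSpectrum (𝓞 k), (3 : 𝓞 k) ∉ v.asIdeal → c (E k) v = 1 ∧ corr (E k) v = 1) ∧
    0 < prodC (E k) ∧ Odd (Nat.card (tors k)) ∧ 0 < Omega k (E ℤ)

/-- `Λ` is the meromorphic continuation of `L(E/k, s)` to the plane, and it is analytic at `1`. -/
def IsContinuation (k : Type) [Field k] [NumberField k] (Λ : ℂ → ℂ) : Prop :=
  MeromorphicOn Λ Set.univ ∧ AnalyticAt ℂ Λ 1 ∧
    ∀ s : ℂ, 3 / 2 < s.re → LSeriesSummable ((fun n : ℤ => (n : ℂ)) ∘ (E k).LFunction) s ∧
      Λ s = (E k).LSeries s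

/-- The rank of `E(k)` is zero and `Ш(E/k)[2^∞] = 0`. -/
def Trivial (k : Type) [Field k] [NumberField k] : Prop := rank k = 0 ∧ Sha2 (E k) = {0}

/-- The formula of Birch and Swinnerton-Dyer modulo two, where `l = L(E/k, 1)`. -/
def FormulaModTwo (k : Type) [Field k] [NumberField k] (l : ℂ) : Prop :=
  (Trivial k → IsUnitAtTwo (value k l)) ∧ (¬ Trivial k → IsEvenAtTwo (value k l))

/-- A prime `w` of `N`, not above three, modulo which two is a cube, is ramified in `K`: there is a
prime `w'` of `K` with `w 𝓞_K ⊆ w'²`. -/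
def BadPrime (N K : Type) [Field N] [NumberField N] [Field K] [NumberField K] [Algebra N K] : Prop :=
  ∃ (w : HeightOneSpectrum (𝓞 N)) (w' : HeightOneSpectrum (𝓞 K)),
    (3 : 𝓞 N) ∉ w.asIdeal ∧ (∃ x : 𝓞 N, x ^ 3 - 2 ∈ w.asIdeal) ∧
    w.asIdeal.map (algebraMap (𝓞 N) (𝓞 K)) ≤ w'.asIdeal ^ 2

section final

variable {k : Type} [Field k] [NumberField k]

lemma facts (hU : Pool.Agent.K7.H56.Unr2 k) (h3 : Pool.Agent.K7.H70.SM.NG k) : Facts k :=
  ⟨Pool.Agent.K7.H73.L3.cc_odd h3, fun _ hv => Pool.Agent.K7.H73.L3.away hv,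
    (Pool.Agent.K7.H73.L3.CE_unit h3).1,
    Pool.Agent.K7.H56.U.tors_E' (Pool.Agent.K7.H56.U.no_cube hU), Omega_pos k⟩

lemma triv_iff (hU : Pool.Agent.K7.H56.Unr2 k) : Trivial k ↔ Pool.Agent.K7.H56.U.S2 k := by
  rw [Pool.Agent.K7.H56.U.sel_iff (Pool.Agent.K7.H56.U.no_cube hU)]
  unfold Trivial
  rw [← sha_iff]
  have hrank : rank k = 0 ↔ Finite (E k).toAffine.Point := Pool.Agent.K7.H56.M.rank_E k
  rw [hrank]
  rfl

lemma isL_iff {L : ℂ → ℂ} : IsContinuation k L ↔ Pool.Agent.K7.H56.U.IsL k L :=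
  ⟨fun h => ⟨h.1, h.2.1, h.2.2⟩, fun h => ⟨h.mero, h.an, h.eq⟩⟩

lemma exists_periods : ∃ (Λ : PeriodPair) (ω : ℝ), Pool.Agent.Y696.IsPeriods Λ ω := by
  obtain ⟨Λ, ω, p1, p2, p3⟩ := Pool.Agent.Y696.exists_real
  exact ⟨Λ, ω, p1, p2, p3⟩

/-- the value and the normalized value -/
lemma v_xv (hU : Pool.Agent.K7.H56.Unr2 k) (h3 : Pool.Agent.K7.H70.SM.NG k) {L : ℂ → ℂ}
    {Λ : PeriodPair} {ω : ℝ} (hP : Pool.Agent.Y696.IsPeriods Λ ω)
    {Γ : Type} [LinearOrderedCommGroupWithZero Γ] {v : Valuation ℂ Γ} (hv : v 2 < 1) :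
    v (value k (L 1)) = v (Pool.Agent.K7.H56.U.xv k Λ ω L) :=
  v_value hv (Pool.Agent.K7.H73.BS.v_per hv k hP rfl rfl).2.2
    (Pool.Agent.K7.H56.U.tors_E' (Pool.Agent.K7.H56.U.no_cube hU)) h3

end final

/-- **The formula of Birch and Swinnerton-Dyer modulo two for `y² + y = x³` over the 2-extensions `K` of
the subfields `M` of the Galois 2-extensions `L` of `C = ℚ(√-3)` and `C = ℚ(ζ₉)`, where `L/C` is ramified
only at primes modulo which two is not a cube, and above three.** -/
theorem result (m : ℕ) (hm : m = 3 ∨ m = 9) (C L M K G : Type) [Field C] [NumberField C]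
    [IsCyclotomicExtension {m} ℚ C] [Field L] [NumberField L] [Algebra C L] [IsGalois C L]
    [Field M] [NumberField M] [Algebra M L] [Field K] [NumberField K] [Field G] [NumberField G]
    [Algebra M K] [Algebra K G] [Algebra M G] [IsScalarTower M K G] [IsGalois M G]
    (hL : ∃ n : ℕ, Module.finrank C L = 2 ^ n) (hram : GoodRam C L)
    (hG : ∃ n : ℕ, Module.finrank M G = 2 ^ n) (h2 : ¬ (2 : ℤ) ∣ discr K) :
    Facts K ∧ ∃ Λ : ℂ → ℂ, IsContinuation K Λ ∧
      (Trivial K → IsUnitAtTwo (value K (Λ 1))) ∧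
      (¬ Trivial K → IsEvenAtTwo (value K (Λ 1))) ∧
      (Trivial K ↔ ¬ BadPrime M K) := by
  have hU : Pool.Agent.K7.H56.Unr2 K := Pool.Agent.K7.H56.U.unr2_of h2
  have hGL : Pool.Agent.K7.H56.P.Gd C L := Pool.Agent.K7.H56.P.gd_of fun w hw h3 α hα => by
    obtain ⟨σ, hσ, hin⟩ := hw
    refine hram w σ (fun h => h3 ?_) hin hσ α hα
    show algebraMap (𝓞 C) (𝓞 L) 3 ∈ w.asIdeal
    rw [map_ofNat]
    exact h
  have hB : Pool.Agent.K7.H56.U2.Bs M := by
    rcases hm with rfl | rfl
    · exact Pool.Agent.K7.H56.U2.bs_three (C := C) (L := L) hL hGL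
    · exact Pool.Agent.K7.H56.U2.bs_nine (C := C) (L := L) hL hGL
  have hnu := Pool.Agent.K7.H56.U2.ng_up
  obtain ⟨R, h3K⟩ := Pool.Agent.K7.H56.U2.rel_all5 (G := G) hnu Pool.Agent.K7.H56.U2.lc3_true hG hU hB.ng
  obtain ⟨LK, hLK⟩ := Pool.Agent.K7.H56.U2.exL5 hnu hU h3K
  obtain ⟨LM, hLM⟩ := Pool.Agent.K7.H56.U2.exL5 hnu hB.two hB.ng
  obtain ⟨Λ, ω, hP⟩ := exists_periods
  have hbad : ¬ BadPrime M K ↔ Pool.Agent.K7.H56.P.Gd M K :=
    not_iff_comm.1 Pool.Agent.K7.H56.U.bad_iff
  by_cases hG : Pool.Agent.K7.H56.P.Gd M K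
  · have hT : Trivial K := (triv_iff hU).2 ((R.gs hG).2 hB.sel)
    refine ⟨facts hU h3K, LK, isL_iff.2 hLK, fun _ => unit_iff.2 fun Γ _ v hv => ?_,
      fun h => absurd hT h, ⟨fun _ => hbad.2 hG, fun _ => hT⟩⟩
    rw [v_xv hU h3K hP hv]
    exact (R.gv hG LM LK hLM hLK Λ ω hP Γ v hv).2 (hB.val hLM hP hv)
  · have hT : ¬ Trivial K := fun h => R.bs hG ((triv_iff hU).1 h)
    refine ⟨facts hU h3K, LK, isL_iff.2 hLK, fun h => absurd h hT,
      fun _ => even_iff.2 fun Γ _ v hv => ?_,
      ⟨fun h => absurd h hT, fun h => absurd (hbad.1 h) hG⟩⟩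
    rw [v_xv hU h3K hP hv]
    exact R.bv hG LK hLK Λ ω hP Γ v hv

end Pool.Agent.Results.MP_f50388_nt.FormulaModTwoTowers
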