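import Pool.Agent.K7.H73.BS.Alg
import Pool.Agent.K7.H73.NM.N
import Pool.Agent.K7.H73.L3.I
import Pool.Agent.K7.H70.TW.I
import Pool.Agent.K7.H73.T2.G3
import Pool.Agent.K7.H73.T2.G4

/-!
# The 2-part of the refined Birch and Swinnerton-Dyer conjecture for the forms of `y² + y = x³` over every
# subfield of the Galois 2-extensions of `ℚ(√-3)` and of `ℚ(ζ₉)`

Let `M` be `ℚ(√-3)` or `ℚ(ζ₉)`, let `K/M` be any Galois extension of degree `2 ^ n` such that the primes
of `M` which are not above three and modulo which `2` is a cube do not ramify in `K` (there is no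
condition on the ramification above three), and let `k ⊆ k' ⊆ K` be any subfields such that `[k' : k]` is
a power of two (this is no condition if `M = ℚ(√-3)`, and then one can take `k' = K`).  The group
`Gal(K/M)` can be any group of order `2 ^ n`; `k` need not be normal over anything, and there is no
condition on the class numbers.

Theorem.  Let `W` be any elliptic curve over `ℚ` (or, more generally, over `k`) which becomes isomorphic
over `k'` to `E : y² + y = x³`.  Then `L(W/k, s)` continues to a meromorphic function on `ℂ` which is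
analytic at `s = 1`, and `L(W/k, 1) ≠ 0`; the group `W(k)` is finite of odd order; `Ш(W/k)[2^∞] = 0`;
the Tamagawa numbers are odd; and the formula of the problem for `L(W/k, 1)` holds up to a 2-adic unit:
the quotient of `L(W/k, 1)` by

  `#Ш(W/k)[2^∞] Ω_{W/k} C_{W/k} / (√|Disc k| #W(k)²)`

is an algebraic number which is a unit at all the primes above two.  For `W` over `ℚ` the period is
`Ω_{W/k} = Ω₊ ^ r₁ Ω₋ ^ r₂`, as in the problem; for `W` over `k` it is the product over the infinite places
of `k` of the periods of the conjugates of the equation `W`.  `C_{W/k}` is the product of the problem: the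
Tamagawa numbers of the local minimal equations and the corrections `|Δ_{W,v,min} / Δ_W|_v ^ (1/12)`.  The
equation `W` is arbitrary, and need not be minimal: `Ω_{W/k} C_{W/k}` does not depend on it.

The curves are the quadratic twists `y² = x³ + 16 d³` of `E` by the `d ≠ 0` in `k` (or in `ℚ`) which are
squares in `k'`.  For a fixed `k` there are infinitely many of them: if `k ⊆ K₀` for one such field `K₀`,
then for example all the integers `d ≡ 1` modulo `4` that are up to sign products of distinct prime
numbers congruent to `1` modulo `9` modulo which `2` is not a cube, because `K₀(√d)` is again of this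
kind.

This contains and replaces our earlier hand-in `TwoPartTwoExtensions` (the case `W = E`).

Proof (helper56, helper70, helper73, helper89).
* Analytic side.  The values at `s = 1` of the L-functions of `E/N` (`N ∋ √-3` any number field which is
  unramified at two) twisted by the ray class characters of 2-power order are congruent, relative to
  `Ω ^ d`, to the value without the character with Euler factors removed, modulo the primes above two
  (Shintani's unfolding, and an iterated Stokes formula for an Eisenstein-Kronecker series in several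
  variables).  This gives the 2-adic valuation of `L(E/T, 1)` for all the subfields `T` of `K`.
* `L(W/k, s) L(E/k, s) = L(E/k(√d), s)`, with the equality of the Euler factors at all places: at a place `v`
  not above three where `k(√d)/k` is not ramified the twist has the good model
  `y² + t³ y = x³ - 3 t⁴ n + 12 t² n² - 16 n³`, where `t² - 4 n = b² d` is a unit at `v`.
* `Ω_{W/k} C_{W/k}` has the same 2-adic valuation as `Ω_{E/k}`: the periods of the conjugates are scaled by
  the square roots of the conjugates of `4 u² d`, and `∏_v |Δ_{W,v,min} / Δ_W|_v ^ (1/12)` is computed with the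
  product formula; `Δ_{W,v,min}` is a unit at the places above two.
* All the Tamagawa numbers are odd: the completion `k_v` contains no cube root of two if `v` divides
  three or if `k(√d)/k` is ramified at `v`, and then the group of the points with nonsingular reduction on
  an integral equation has odd index.
* Algebraic side.  The 2-Selmer group of `E` vanishes at every step of a tower of quadratic extensions;
  then one descends to the subfields, and to the forms.
-/

set_option autoImplicit false

open NumberField IsDedekindDomain WeierstrassCurve MeasureTheory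
open scoped Classical

namespace Pool.Agent.Results.MP_f50388_nt.TwoPartTwists

open Pool.Agent.TH841.NF.D (Sha)

/-- Above the prime numbers other than three, only primes modulo which `2` is not a cube ramify in
`K/M`: if `σ ≠ 1` lies in the inertia group of the prime `w` of `K`, and `w` does not divide three, then
`2` is not a cube modulo the prime of `M` below `w`. -/
def GoodRam (M K : Type) [Field M] [NumberField M] [Field K] [NumberField K] [Algebra M K] : Prop :=
  ∀ (w : HeightOneSpectrum (𝓞 K)) (σ : Gal(K/M)), (3 : 𝓞 K) ∉ w.asIdeal →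
    (∀ x : 𝓞 K, σ • x - x ∈ w.asIdeal) → σ ≠ 1 → ∀ α : 𝓞 M, α ^ 3 - 2 ∉ w.asIdeal.under (𝓞 M)

/-- The curve `W` over `F` becomes isomorphic over `L` to the curve `E : y² + y = x³`. -/
def SplitBy (F L : Type) [Field F] [Field L] [Algebra F L] (W : WeierstrassCurve F) : Prop :=
  ∃ C : VariableChange L, C • W.map (algebraMap F L) = ⟨0, 0, 1, 0, 0⟩

section

variable {k : Type} [Field k] [NumberField k]

/-- A minimal equation of `W` over the completion `k_v`. -/
noncomputable def minEq (W : WeierstrassCurve k) (v : HeightOneSpectrum (𝓞 k)) :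
    WeierstrassCurve (v.adicCompletion k) :=
  (W.baseChange (v.adicCompletion k)).minimal (v.adicCompletionIntegers k)

/-- `W⁰(k_v)`, the group of the points over the completion `k_v` with nonsingular reduction, for an
equation `W` with integral coefficients in `k_v`: it is generated by the point at infinity and the points
`(x, y)` where one of the partial derivatives `2 y + a₁ x + a₃` and `3 x² + 2 a₂ x + a₄ - a₁ y` does
not lie in the maximal ideal (this is always so if `x` is not integral). -/
noncomputable def nonsing {v : HeightOneSpectrum (𝓞 k)} (W : WeierstrassCurve (v.adicCompletion k)) :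
    AddSubgroup W.toAffine.Point :=
  AddSubgroup.closure {P | ∀ x y h, P = Affine.Point.some x y h →
    1 ≤ Valued.v (2 * y + W.a₁ * x + W.a₃) ∨
    1 ≤ Valued.v (3 * x ^ 2 + 2 * W.a₂ * x + W.a₄ - W.a₁ * y)}

/-- The Tamagawa number `c_v = [W(k_v) : W⁰(k_v)]`, for a minimal equation over `k_v`. -/
noncomputable def c (W : WeierstrassCurve k) (v : HeightOneSpectrum (𝓞 k)) : ℕ :=
  (nonsing (minEq W v)).index

/-- The normalised absolute value of `k_v`. -/
noncomputable def absv (v : HeightOneSpectrum (𝓞 k)) (x : v.adicCompletion k) : ℝ :=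
  if x = 0 then 0 else (Ideal.absNorm v.asIdeal : ℝ) ^ WithZero.log (Valued.v x)

/-- `C_{W/k} = ∏ c_v |Δ_{W,v,min} / Δ_W|_v ^ (1/12)`, the product over all the finite places. -/
noncomputable def C (W : WeierstrassCurve k) : ℝ :=
  ∏ᶠ v : HeightOneSpectrum (𝓞 k), (c W v : ℝ) *
    absv v ((minEq W v).Δ / (W.baseChange (v.adicCompletion k)).Δ) ^ (1 / 12 : ℝ)

/-- The 2-primary part of the Tate-Shafarevich group over `k`. -/
def Sha2 (W : WeierstrassCurve k) : Set (Sha W) := {x | ∃ n : ℕ, 2 ^ n • x = 0}

end

/-- `4 x³ + b₂ x² + 2 b₄ x + b₆ = (2 y + a₁ x + a₃)²`. -/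
def cubic {R : Type} [CommRing R] (W : WeierstrassCurve R) (x : R) : R :=
  4 * x ^ 3 + W.b₂ * x ^ 2 + 2 * W.b₄ * x + W.b₆

/-- `Ω₊ = ∫_{W(ℝ)} |ω|` with `ω = dx / (2 y + a₁ x + a₃)`, as an integral over `x`: two real points lie
over each `x` with `cubic x > 0`. -/
noncomputable def realPeriod (W : WeierstrassCurve ℝ) : ℝ :=
  2 * ∫ x in {x : ℝ | 0 < cubic W x}, 1 / √(cubic W x)

/-- `Ω₋ = 2 ∫_{W(ℂ)} |ω ∧ ω̄|`, where `|ω ∧ ω̄| = du dv` in a local parameter `z = u + i v` with
`dz = ω`, as an integral over `x`: two points lie over a general `x`, and `|ω ∧ ω̄|` is the area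
element of the plane of `x` divided by `|cubic x|`. -/
noncomputable def complexPeriod (W : WeierstrassCurve ℂ) : ℝ := 2 * (2 * ∫ x : ℂ, 1 / ‖cubic W x‖)

/-- `Ω_{W/k} = Ω₊ ^ r₁ Ω₋ ^ r₂`, for an equation over `ℚ`. -/
noncomputable def OmegaRat (k : Type) [Field k] [NumberField k] (W : WeierstrassCurve ℚ) : ℝ :=
  realPeriod (W.map (algebraMap ℚ ℝ)) ^ InfinitePlace.nrRealPlaces k *
    complexPeriod (W.map (algebraMap ℚ ℂ)) ^ InfinitePlace.nrComplexPlaces k

/-- `Ω_{W/k}` for an equation over `k`: the product over the infinite places of `k` of the periods of the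
conjugates of the equation. -/
noncomputable def Omega {k : Type} [Field k] [NumberField k] (W : WeierstrassCurve k) : ℝ :=
  (∏ v : {v : InfinitePlace k // v.IsReal},
    realPeriod (W.map (InfinitePlace.embedding_of_isReal v.2))) *
    ∏ v : {v : InfinitePlace k // v.IsComplex}, complexPeriod (W.map v.1.embedding)

/-- The right side of the formula for `W/k`, if the rank is zero, with the 2-primary part of the
Tate-Shafarevich group: `#Ш(W/k)[2^∞] Ω C_{W/k} / (√|Disc k| #W(k)²)`, where `Ω` is the period. -/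
noncomputable def rhs {k : Type} [Field k] [NumberField k] (W : WeierstrassCurve k) (Ω : ℝ) : ℝ :=
  (Nat.card (Sha2 W) : ℝ) * Ω * C W /
    (√|(discr k : ℝ)| * (Nat.card W.toAffine.Point : ℝ) ^ 2)

/-- What we prove for `W` over `k`: the rank part and the 2-part of the refined conjecture, where `Ω` is
the period. -/
def TwoPart {k : Type} [Field k] [NumberField k] (W : WeierstrassCurve k) (Ω : ℝ) : Prop :=
  Finite W.toAffine.Point ∧ Odd (Nat.card W.toAffine.Point) ∧
    (∀ v : HeightOneSpectrum (𝓞 k), Odd (c W v)) ∧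
    Sha2 W = {0} ∧
    ∃ Λ : ℂ → ℂ, MeromorphicOn Λ Set.univ ∧ AnalyticAt ℂ Λ 1 ∧
      (∀ s : ℂ, 3 / 2 < s.re → LSeriesSummable ((fun n : ℤ => (n : ℂ)) ∘ W.LFunction) s ∧
        Λ s = W.LSeries s) ∧
      Λ 1 ≠ 0 ∧ 0 < rhs W Ω ∧
      ∃ m : ℤ, Odd m ∧ IsIntegral ℤ (m * (Λ 1 / rhs W Ω)) ∧ IsIntegral ℤ (m * (rhs W Ω / Λ 1))

lemma C_eq {k : Type} [Field k] [NumberField k] (W : WeierstrassCurve k) :
    C W = Pool.Agent.K7.H73.L3.CE W := rfl

lemma Omega_eq {k : Type} [Field k] [NumberField k] (W : WeierstrassCurve k) :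
    Omega W = Pool.Agent.K7.H73.T2.Om W := rfl

/-- from the terms to the statement -/
theorem main {k : Type} [Field k] [NumberField k] {W : WeierstrassCurve k}
    (h : Finite W.toAffine.Point ∧ Odd (Nat.card W.toAffine.Point) ∧
      (∀ v : HeightOneSpectrum (𝓞 k), Odd (Pool.Agent.K7.H73.L3.cc W v)) ∧
      (∀ s : Sha W, s + s = 0 → s = 0) ∧ Pool.Agent.K7.H73.T2.LV W ∧
      0 < Pool.Agent.K7.H73.T2.Om W ∧ 0 < Pool.Agent.K7.H73.L3.CE W ∧
      ∀ (Λ : PeriodPair) (ω : ℝ), Pool.Agent.Y696.IsPeriods Λ ω →
        ∀ (Γ : Type) [LinearOrderedCommGroupWithZero Γ] (v : Valuation ℂ Γ), v 2 < 1 →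
          v ((Pool.Agent.K7.H73.T2.Om W : ℝ) : ℂ) * v ((Pool.Agent.K7.H73.L3.CE W : ℝ) : ℂ) =
            v (Pool.Agent.Y696.period k Λ ω))
    (hdisc : ¬ (2 : ℤ) ∣ discr k) : TwoPart W (Omega W) := by
  obtain ⟨hfin, hodd, htam, hsha, ⟨Lf, g1, g2, g3, g4, g5⟩, hOm, hC0, hval⟩ := h
  rw [← Omega_eq] at hOm hval
  rw [← C_eq] at hC0 hval
  have hS2 : Sha2 W = {0} := by
    apply Set.eq_singleton_iff_unique_mem.2
    refine ⟨⟨0, smul_zero _⟩, ?_⟩
    rintro x ⟨n, hn⟩
    induction n generalizing x with
    | zero => rwa [pow_zero, one_smul] at hn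
    | succ n ih =>
      refine ih x (hsha _ ?_)
      rw [← two_nsmul, ← mul_smul, ← pow_succ']
      exact hn
  have hcard : Nat.card (Sha2 W) = 1 := by
    rw [hS2]
    exact Nat.card_unique
  obtain ⟨Λ, ω, p1, p2, p3⟩ := Pool.Agent.Y696.exists_real
  have hP : Pool.Agent.Y696.IsPeriods Λ ω := ⟨p1, p2, p3⟩
  have hN0 : 0 < Nat.card W.toAffine.Point := Nat.card_pos
  have hd0 : 0 < √|(discr k : ℝ)| := Real.sqrt_pos.2 (abs_pos.2 (by
    exact_mod_cast discr_ne_zero k))
  have hrhs : 0 < rhs W (Omega W) := by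
    unfold rhs
    rw [hcard]
    positivity
  have hunit : ∀ (Γ : Type) [LinearOrderedCommGroupWithZero Γ] (v : Valuation ℂ Γ), v 2 < 1 →
      v (Lf 1 / (rhs W (Omega W) : ℂ)) = 1 := by
    intro Γ _ v hv
    have h1 := hval Λ ω hP Γ v hv
    have h2 := g5 Λ ω hP Γ v hv
    have h4 : v ((Real.sqrt |(discr k : ℝ)| : ℝ) : ℂ) = 1 := Pool.Agent.Y696.v_sqrtD hv hdisc
    have hodd' : ∀ n : ℕ, Odd n → v (n : ℂ) = 1 := fun n hn => by
      have := Pool.Agent.Y688.v_odd hv (n := (n : ℤ)) (by exact_mod_cast hn)
      exact_mod_cast this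
    have h3 : ((rhs W (Omega W) : ℝ) : ℂ) = ((Omega W : ℝ) : ℂ) * ((C W : ℝ) : ℂ) /
        (((√|(discr k : ℝ)| : ℝ) : ℂ) * ((Nat.card W.toAffine.Point : ℕ) : ℂ) ^ 2) := by
      unfold rhs
      rw [hcard]
      push_cast
      rw [one_mul]
    have h5 : v (Lf 1) ≠ 0 := (Valuation.ne_zero_iff _).2 g4
    rw [h3, map_div₀, map_div₀, map_mul, map_mul, map_pow, hodd' _ hodd, h4, h1, ← h2, one_pow,
      mul_one, div_one, div_self h5]
  obtain ⟨m, hm, i1, i2⟩ := Pool.Agent.K7.H73.BS.unit_of_val hunit
  rw [inv_div] at i2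
  exact ⟨hfin, hodd, htam, hS2, Lf, g1, g2, g3, g4, hrhs, m, hm, i1, i2⟩

/-- the forms over `k` -/
theorem forms {m : ℕ} (hm : m = 3 ∨ m = 9) (M K k' k : Type) [Field M] [NumberField M]
    [IsCyclotomicExtension {m} ℚ M] [Field K] [NumberField K] [Algebra M K] [IsGalois M K]
    [Field k'] [NumberField k'] [Algebra k' K] [Field k] [NumberField k] [Algebra k k']
    (hK : ∃ n : ℕ, Module.finrank M K = 2 ^ n) (hram : GoodRam M K)
    (hk : ∃ n : ℕ, Module.finrank k k' = 2 ^ n) {W : WeierstrassCurve k} (hW : SplitBy k k' W) :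
    TwoPart W (Omega W) := by
  have hG : Pool.Agent.K7.H56.P.Gd M K := Pool.Agent.K7.H56.P.gd_of fun w hw h3 α hα => by
    obtain ⟨σ, hσ, hin⟩ := hw
    refine hram w σ (fun h => h3 ?_) hin hσ α hα
    show algebraMap (𝓞 M) (𝓞 K) 3 ∈ w.asIdeal
    rw [map_ofNat]
    exact h
  obtain ⟨n, hn⟩ := hK
  obtain ⟨r, hr⟩ := hk
  obtain ⟨C, hC⟩ := hW
  obtain ⟨-, d, θ, hd, hθ, C', hC'⟩ := Pool.Agent.K7.H70.TW.form_twist hr W C hC
  let _ : Algebra k K := ((algebraMap k' K).comp (algebraMap k k')).toAlgebra
  have hst : IsScalarTower k k' K := IsScalarTower.of_algebraMap_eq' rfl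
  have hθK : (algebraMap k' K θ) ^ 2 = algebraMap k K d := by
    rw [← map_pow, hθ, ← IsScalarTower.algebraMap_apply]
  have hf : Pool.Agent.K7.H70.TW.Fam K := by
    rcases hm with rfl | rfl
    · exact Pool.Agent.K7.H70.TW.fam3 (M := M) ⟨n, hn⟩ hG
    · exact Pool.Agent.K7.H70.TW.fam9 (M := M) ⟨n, hn⟩ hG
  have hR : Pool.Agent.K7.H73.T2.RC K := Pool.Agent.K7.H73.T2.rc_cyc (M := M) hm hn hG
  have hV : ∀ (T : Type) [Field T] [NumberField T] [Algebra T K],
      Pool.Agent.K7.H70.ST.Val2 T := by
    intro T _ _ _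
    rcases hm with rfl | rfl
    · exact Pool.Agent.K7.H73.L3.val3 (F := M) (K := K) ⟨n, hn⟩ hG
    · exact Pool.Agent.K7.H70.ST.val9 (M := M) (K := K)
        (fun M _ _ _ ι => Pool.Agent.K7.H73.NM.base9 M ι) ⟨n, hn⟩ hG
  have hS : ∀ (T : Type) [Field T] [NumberField T] [Algebra T K],
      Pool.Agent.K7.H70.ST.SelV T := by
    intro T _ _ _
    rcases hm with rfl | rfl
    · exact Pool.Agent.K7.H73.L3.selv3 (F := M) (K := K) ⟨n, hn⟩ hG
    · exact Pool.Agent.K7.H70.ST.selv9 (M := M) (K := K) ⟨n, hn⟩ hG
  exact main (Pool.Agent.K7.H73.T2.all_terms hf hR hV hS hd hθK hC')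
    (Pool.Agent.K7.H73.GN.odd_discr
      (Pool.Agent.K7.H56.M.unr2_down (F := k) (K := K) hf.two))

/-- **The 2-part of the refined conjecture over `k` for the forms of `y² + y = x³`.**  Let `M = ℚ(√-3)` or
`M = ℚ(ζ₉)`, let `K/M` be a Galois extension whose degree is a power of two, in which no prime of `M`
ramifies that is not above three and modulo which `2` is a cube.  Let `k ⊆ k'` be subfields of `K` with
`[k' : k]` a power of two.  The statement holds for all the curves `W` over `ℚ` which become isomorphic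
over `k'` to `y² + y = x³`, and also for all such curves over `k`. -/
theorem result (m : ℕ) (hm : m = 3 ∨ m = 9) (M K k' k : Type) [Field M] [NumberField M]
    [IsCyclotomicExtension {m} ℚ M] [Field K] [NumberField K] [Algebra M K] [IsGalois M K]
    [Field k'] [NumberField k'] [Algebra k' K] [Field k] [NumberField k] [Algebra k k']
    (hK : ∃ n : ℕ, Module.finrank M K = 2 ^ n) (hram : GoodRam M K)
    (hk : ∃ n : ℕ, Module.finrank k k' = 2 ^ n) :
    (∀ W : WeierstrassCurve ℚ, SplitBy ℚ k' W →
      TwoPart (W.map (algebraMap ℚ k)) (OmegaRat k W)) ∧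
    ∀ W : WeierstrassCurve k, SplitBy k k' W → TwoPart W (Omega W) := by
  refine ⟨fun W hW => ?_, fun W hW => forms hm M K k' k hK hram hk hW⟩
  have h1 : SplitBy k k' (W.map (algebraMap ℚ k)) := by
    obtain ⟨C, hC⟩ := hW
    refine ⟨C, ?_⟩
    rw [WeierstrassCurve.map_map, ← hC]
    congr 2
    exact Subsingleton.elim _ _
  have h2 : OmegaRat k W = Omega (W.map (algebraMap ℚ k)) :=
    (Pool.Agent.K7.H73.T2.Om_rat W).symm
  rw [h2]
  exact forms hm M K k' k hK hram hk h1

end Pool.Agent.Results.MP_f50388_nt.TwoPartTwists
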